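import Mathlib
import Pool.Agent.Q102.Grid

/-!
# The `k`-general position number of the `n`-dimensional integer grid (MP_2aa471_co)

`gp^k(P_∞^{□,n}) = (k - 1) ^ (2 ^ (n - 1))` for all `k ≥ 2` and `n ≥ 1`.
-/

set_option autoImplicit false

open SimpleGraph Finset

namespace Pool.Agent.Results.MP_2aa471_co.GpkOfGrid

/-- `S` is a `k`-general position set: no `k` distinct vertices of `S` lie on a common geodesic. -/
def IsKGP {V : Type*} (G : SimpleGraph V) (k : ℕ) (S : Set V) : Prop :=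
  ∀ T : Finset V, (T : Set V) ⊆ S → T.card = k →
    ¬ ∃ (a b : V) (p : G.Walk a b), p.length = G.dist a b ∧ ∀ x ∈ T, x ∈ p.support

/-- The `k`-general position number, as a supremum of cardinalities in `ℕ∞`. -/
noncomputable def gpk {V : Type*} (G : SimpleGraph V) (k : ℕ) : ℕ∞ :=
  ⨆ (S : Set V) (_ : IsKGP G k S), S.encard

/-- The `n`-dimensional infinite grid: the vertices are the points of `ℤ ^ n`, and two points are
adjacent when they differ by `1` in exactly one coordinate. -/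
def grid (n : ℕ) : SimpleGraph (Fin n → ℤ) where
  Adj x y := ∃ i, |x i - y i| = 1 ∧ ∀ j, j ≠ i → x j = y j
  symm := ⟨fun _ _ ⟨i, h, hj⟩ => ⟨i, by rw [abs_sub_comm]; exact h, fun j h' => (hj j h').symm⟩⟩
  loopless := ⟨fun _ ⟨_, h, _⟩ => by simp at h⟩

theorem result (n k : ℕ) (hn : 1 ≤ n) (hk : 2 ≤ k) :
    gpk (grid n) k = (((k - 1) ^ 2 ^ (n - 1) : ℕ) : ℕ∞) := by
  have hgrid : ∀ n, grid n = Pool.Agent.Q102.Grid.grid n := fun n => rfl
  obtain ⟨m, rfl⟩ : ∃ m, n = m + 1 := ⟨n - 1, by omega⟩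
  rw [Nat.add_sub_cancel, hgrid]
  apply le_antisymm
  · refine iSup₂_le fun S hS => ?_
    -- finite subsets are small
    have hfin : ∀ F : Finset (Fin (m + 1) → ℤ), (F : Set (Fin (m + 1) → ℤ)) ⊆ S →
        F.card ≤ (k - 1) ^ 2 ^ m := by
      intro F hF
      apply Pool.Agent.Q102.Grid.card_le F (k - 1)
      intro τ T hT hcomp
      by_contra hcon
      obtain ⟨T', hT', hcard⟩ := exists_subset_card_eq (show k ≤ T.card by omega)
      obtain ⟨a, b, -, -, p, hp, hpT⟩ := Pool.Agent.Q102.Grid.geodesic_of_chain (τ := τ) (k - 1) T'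
        (by omega) fun x hx y hy => hcomp x (hT' hx) y (hT' hy)
      exact hS T' (fun x hx => hF (hT (hT' hx))) hcard
        ⟨a, b, p, by rw [hp, Pool.Agent.Q102.Grid.dist_eq], hpT⟩
    by_contra hcon
    rw [not_le] at hcon
    have h1 : (((k - 1) ^ 2 ^ m + 1 : ℕ) : ℕ∞) ≤ S.encard := by
      have := Order.add_one_le_of_lt hcon
      exact_mod_cast this
    obtain ⟨T, hTS, hT⟩ := Set.exists_subset_encard_eq h1
    have hTfin : T.Finite := Set.finite_of_encard_eq_coe hT
    have h2 := hfin hTfin.toFinset (by simpa using hTS)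
    have h3 : T.encard = hTfin.toFinset.card := hTfin.encard_eq_coe_toFinset_card
    rw [h3] at hT
    have h4 : hTfin.toFinset.card = (k - 1) ^ 2 ^ m + 1 := by exact_mod_cast hT
    omega
  · obtain ⟨X, hX, hXT, -⟩ := Pool.Agent.Q102.Grid.exists_points_max m (k - 1) 0 (by omega)
    rw [← hX, ← Set.encard_coe_eq_coe_finsetCard]
    refine le_iSup₂_of_le (X : Set (Fin (m + 1) → ℤ)) ?_ le_rfl
    rintro T hT hcard ⟨a, b, p, hp, hpT⟩
    obtain ⟨τ, hτ⟩ := Pool.Agent.Q102.Grid.comparable_of_geodesic p hp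
    have := hXT τ T (by simpa using hT) fun x hx y hy => hτ x (hpT x hx) y (hpT y hy)
    omega

end Pool.Agent.Results.MP_2aa471_co.GpkOfGrid
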